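import Pool.Agent.KDS.StmtsA

/-!
# Squad KDS, row NDT: the determinant at a node
-/

set_option autoImplicit false

namespace Pool.Agent.KDS.H41

open Polynomial NumberField H58Q Pool.Agent.SZT Pool.Agent.KDT

theorem dup0_smul {K : Type} [Field K] (f : K[X]) (c : K) (u : Fin 4 → K) :
    dup0 f (c • u) = c ^ 4 * dup0 f u := by
  unfold dup0
  simp only [Pi.smul_apply, smul_eq_mul]
  ring

theorem dup1_smul {K : Type} [Field K] (f : K[X]) (c : K) (u : Fin 4 → K) :
    dup1 f (c • u) = c ^ 4 * dup1 f u := by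
  unfold dup1
  simp only [Pi.smul_apply, smul_eq_mul]
  ring

theorem dup2_smul {K : Type} [Field K] (f : K[X]) (c : K) (u : Fin 4 → K) :
    dup2 f (c • u) = c ^ 4 * dup2 f u := by
  unfold dup2
  simp only [Pi.smul_apply, smul_eq_mul]
  ring

theorem dup3_smul {K : Type} [Field K] (f : K[X]) (c : K) (u : Fin 4 → K) :
    dup3 f (c • u) = c ^ 4 * dup3 f u := by
  unfold dup3
  simp only [Pi.smul_apply, smul_eq_mul]
  ring

theorem dup_smul {K : Type} [Field K] (f : K[X]) (c : K) (u : Fin 4 → K) :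
    dup f (c • u) = c ^ 4 • dup f u := by
  unfold dup
  rw [dup0_smul, dup1_smul, dup2_smul, dup3_smul]
  funext l
  fin_cases l <;> rfl

theorem quart_smul {K : Type} [Field K] (f : K[X]) (c : K) (u : Fin 4 → K) :
    quart f (c • u) = c ^ 4 * quart f u := by
  unfold quart
  simp only [Pi.smul_apply, smul_eq_mul]
  ring

theorem dpw_succ' {K : Type} [Field K] (f : K[X]) (a : ℕ) : ∀ u : Fin 4 → K,
    dpw f (a + 1) u = dup f (dpw f a u) := by
  induction a with
  | zero => intro u; rfl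
  | succ a ih =>
    intro u
    show dpw f (a + 1) (dup f u) = dup f (dpw f a (dup f u))
    exact ih (dup f u)

theorem mon_smul {K : Type} [Field K] (e : Fin 4 → ℕ) (c : K) (u : Fin 4 → K) :
    mon e (c • u) = c ^ (e 0 + e 1 + e 2 + e 3) * mon e u := by
  unfold mon
  simp only [Pi.smul_apply, smul_eq_mul, Fin.prod_univ_four]
  ring

theorem Ex_sum {k : ℕ} (e : Ex k) : e.1 0 + e.1 1 + e.1 2 + e.1 3 = k := by
  have h := e.2
  unfold Ex at h
  rw [Finset.mem_filter] at h
  exact h.2.1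

/-- the factors -/
noncomputable def Lam {E : Type} [Field E] (lam : ℕ → E) : ℕ → E
  | 0 => 1
  | a + 1 => Lam lam a ^ 4 * lam a

theorem lev_eq (i : ℕ) : ∑ a ∈ Finset.range i, 2 * 4 ^ a = lev i := by
  induction i with
  | zero => rfl
  | succ i ih =>
    rw [Finset.sum_range_succ']
    have h : ∑ a ∈ Finset.range i, 2 * 4 ^ (a + 1) = 4 * lev i := by
      rw [← ih, Finset.mul_sum]
      exact Finset.sum_congr rfl fun a _ => by ring
    rw [h]
    rfl

theorem ndt (rpq : RpqStatement) (dts : DtsStatement) : NdtStatement := by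
  intro E _ w g δ hN i Γ hΓ u lam L hq hd h0 hdet
  have hlam : ∀ j, ∀ a ≤ i, Lam (lam j) a ≠ 0 := by
    intro j a
    induction a with
    | zero => intro _; exact one_ne_zero
    | succ a ih =>
      intro ha
      exact mul_ne_zero (pow_ne_zero _ (ih (by omega))) (hd j a (by omega)).1
  have hdp : ∀ j, ∀ a ≤ i, dpw g a (u j 0) = Lam (lam j) a • u j a := by
    intro j a
    induction a with
    | zero =>
      intro _
      show u j 0 = (1 : E) • u j 0
      rw [one_smul]
    | succ a ih =>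
      intro ha
      rw [dpw_succ', ih (by omega), dup_smul, (hd j a (by omega)).2.1, smul_smul]
      rfl
  have hlog : ∀ j, ∀ a ≤ i, Real.log (w (Lam (lam j) a)) = 4 ^ a * L j 0 - L j a := by
    intro j a
    induction a with
    | zero =>
      intro _
      show Real.log (w 1) = _
      rw [map_one, Real.log_one]; ring
    | succ a ih =>
      intro ha
      obtain ⟨h1, _, h3⟩ := hd j a (by omega)
      show Real.log (w (Lam (lam j) a ^ 4 * lam j a)) = _
      rw [map_mul, map_pow, Real.log_mul (pow_ne_zero _ (w.ne_zero (hlam j a (by omega))))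
        (w.ne_zero h1), Real.log_pow, ih (by omega), h3]
      push_cast
      ring
  have hYY : ∀ j, u j 0 ∈ YY g i := by
    intro j b hb
    rw [hdp j b hb, quart_smul, hq j b hb, mul_zero]
  obtain ⟨c, hc⟩ : ∃ c : QI i → E, c = fun j => ∏ a : Fin i, Lam (lam j) a ^ 2 := ⟨_, rfl⟩
  obtain ⟨M, hM⟩ : ∃ M : Matrix (QI i) (QI i) E,
    M = Matrix.of fun (j q : QI i) => ∏ a : Fin i, mon (q a).1 (u j a) := ⟨_, rfl⟩
  have hPQ : ∀ j q, PQ g i q (u j 0) = c j * M j q := by
    intro j q
    rw [hc, hM]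
    show ∏ a : Fin i, mon (q a).1 (dpw g a (u j 0)) =
      (∏ a : Fin i, Lam (lam j) a ^ 2) * ∏ a : Fin i, mon (q a).1 (u j a)
    rw [← Finset.prod_mul_distrib]
    refine Finset.prod_congr rfl fun a _ => ?_
    rw [hdp j a a.2.le, mon_smul, Ex_sum]
  choose A hA hAw using fun q : QI i => rpq E w g δ hN i q
  have hdts := dts E w hN.na (QI i) (Ex (lev i)) (fun j e => mon e.1 (u j 0))
    (fun e q => A q e) (fun j => Real.exp (lev i * L j 0))
    (fun e => Real.exp (-δ * max 0 ((jj e.1 : ℝ) ^ 2 / (4 * lev i) - i / 2)))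
    (Real.exp (-δ * Γ)) (fun j => (Real.exp_pos _).le) (Real.exp_pos _).le
    (by
      intro j e
      show w (mon e.1 (u j 0)) ≤ Real.exp (lev i * L j 0)
      unfold mon
      rw [map_prod]
      simp only [map_pow]
      have h1 : ∏ l, w (u j 0 l) ^ e.1 l ≤ ∏ l, Real.exp (L j 0) ^ e.1 l :=
        Finset.prod_le_prod (fun l _ => pow_nonneg (w.nonneg _) _)
          fun l _ => pow_le_pow_left₀ (w.nonneg _) (h0 j l) _
      refine h1.trans ?_
      rw [Finset.prod_pow_eq_pow_sum, ← Real.exp_nat_mul, Fin.sum_univ_four, Ex_sum])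
    (fun e q => hAw q e) (fun e => (Real.exp_pos _).le)
    (by
      intro s hs
      rw [← Real.exp_sum, Real.exp_le_exp, ← Finset.mul_sum]
      have h1 := hΓ s hs
      have h2 := hN.pos
      nlinarith)
  have hmat : (Matrix.of fun (j q : QI i) => ∑ e : Ex (lev i), mon e.1 (u j 0) * A q e) =
      Matrix.of fun j q => c j * M j q := by
    ext j q
    show ∑ e : Ex (lev i), mon e.1 (u j 0) * A q e = c j * M j q
    rw [← hPQ, hA q (u j 0) (hYY j)]
    exact Finset.sum_congr rfl fun e _ => mul_comm _ _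
  rw [hmat, Matrix.det_mul_column, map_mul] at hdts
  rw [← hM] at hdet ⊢
  have hcne : ∀ j, c j ≠ 0 := by
    intro j
    rw [hc]
    exact Finset.prod_ne_zero_iff.mpr fun a _ => pow_ne_zero _ (hlam j a a.2.le)
  have hcp : w (∏ j, c j) ≠ 0 := w.ne_zero (Finset.prod_ne_zero_iff.mpr fun j _ => hcne j)
  have hMp : w M.det ≠ 0 := w.ne_zero hdet
  have hlg := Real.log_le_log (by
    have h1 : 0 < w (∏ j, c j) := lt_of_le_of_ne (w.nonneg _) (Ne.symm hcp)
    have h2 : 0 < w M.det := lt_of_le_of_ne (w.nonneg _) (Ne.symm hMp)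
    positivity) hdts
  rw [Real.log_mul hcp hMp, ← Real.exp_sum, ← Real.exp_add, Real.log_exp] at hlg
  have hlc : Real.log (w (∏ j, c j)) =
      ∑ j, ∑ a : Fin i, 2 * (4 ^ (a : ℕ) * L j 0 - L j a) := by
    rw [map_prod, Real.log_prod (fun j _ => w.ne_zero (hcne j))]
    refine Finset.sum_congr rfl fun j _ => ?_
    rw [hc]
    show Real.log (w (∏ a : Fin i, Lam (lam j) a ^ 2)) = _
    rw [map_prod, Real.log_prod (fun (a : Fin i) _ =>
      w.ne_zero (pow_ne_zero 2 (hlam j (a : ℕ) a.2.le)))]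
    refine Finset.sum_congr rfl fun a _ => ?_
    rw [map_pow, Real.log_pow, hlog j a a.2.le]
    push_cast
    ring
  have hlev : ∑ a : Fin i, 2 * (4 : ℝ) ^ (a : ℕ) = lev i := by
    rw [Fin.sum_univ_eq_sum_range (fun a => 2 * (4 : ℝ) ^ a) i, ← lev_eq]
    push_cast
    rfl
  have hsum : ∑ j, ∑ a : Fin i, 2 * (4 ^ (a : ℕ) * L j 0 - L j a) =
      ∑ j, (lev i : ℝ) * L j 0 - ∑ j, ∑ a : Fin i, 2 * L j a := by
    rw [← Finset.sum_sub_distrib]
    refine Finset.sum_congr rfl fun j _ => ?_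
    rw [← hlev, Finset.sum_mul, ← Finset.sum_sub_distrib]
    exact Finset.sum_congr rfl fun a _ => by ring
  rw [hlc, hsum] at hlg
  linarith

end Pool.Agent.KDS.H41
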